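import Pool.Agent.H24.PN.All

/-! Exact order of the H^p norms of the Dirichlet polynomials with coefficients
d(n)^gamma n^(-1/2), for all real gamma and all 0 < p <= 1. -/

namespace Pool.Agent.Results.MP_d91868_an.FullOrder

/-- The exact order of the norm. Here L = log N, L2 = log log N, L3 = log log log N and
alpha = 2^gamma. The condition alpha (1 + sqrt (1 - p)) < 2, = 2, > 2 separates the subcritical
range, the critical line and the range with a freezing effect. -/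
noncomputable def g (γ p : ℝ) (N : ℕ) : ℝ :=
  if (2 : ℝ) ^ γ * (1 + Real.sqrt (1 - p)) < 2 then (Real.log N) ^ ((2 : ℝ) ^ (2 * γ) * p / 4)
  else if 1 < γ then
    (Real.log N) ^ ((2 : ℝ) ^ (2 * γ) / 4) * (if p = 1 then Real.log (Real.log N) else 1)
  else if γ = 1 then
    Real.log N * (Real.log (Real.log N)) ^ (if p = 1 then (1 / 2 : ℝ) else -(1 / 2 : ℝ))
  else if 2 < (2 : ℝ) ^ γ * (1 + Real.sqrt (1 - p)) then
    (Real.log N) ^ ((2 : ℝ) ^ γ - 1) * (Real.log (Real.log N)) ^ (-(3 * (2 : ℝ) ^ γ / 4))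
  else (Real.log N) ^ ((2 : ℝ) ^ γ - 1) *
    (if p < 8 / 9 then (Real.log (Real.log N)) ^ ((1 - 3 * (2 : ℝ) ^ γ * p / 4) / p)
      else if p = 8 / 9 then (Real.log (Real.log (Real.log N))) ^ (9 / 8 : ℝ) else 1)

theorem result : ∀ γ p : ℝ, 0 < p → p ≤ 1 →
    ∃ c C : ℝ, 0 < c ∧ 0 < C ∧ ∀ N : ℕ, 16 ≤ N → ∃ v : ℝ, 0 ≤ v ∧
      Filter.Tendsto (fun T : ℝ => (2 * T)⁻¹ * ∫ y in (-T)..T,
        ‖∑ n ∈ Finset.Icc 1 N, (((n.divisors.card : ℝ) ^ γ : ℝ) : ℂ) *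
          (n : ℂ) ^ (-(1 / 2 : ℂ) - (y : ℂ) * Complex.I)‖ ^ p) Filter.atTop (nhds (v ^ p)) ∧
      0 < g γ p N ∧ c * g γ p N ≤ v ∧ v ≤ C * g γ p N := by
  intro γ p hp hp1
  obtain ⟨c, C, hc, hC, hN⟩ := PN.tFIN γ p hp hp1
  refine ⟨c, C, hc, hC, fun N h16 => ?_⟩
  obtain ⟨v, ⟨hv0, hv⟩, h1, h2⟩ := hN N h16
  refine ⟨v, hv0, hv, ?_, h1, h2⟩
  obtain ⟨e1, e2, e3, -, -⟩ := PN.logN16 h16
  have e4 : 0 < Real.log N := lt_trans (Real.exp_pos 1) e1
  have e5 : 0 < Real.log (Real.log N) := by linarith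
  unfold g
  split_ifs <;> positivity

end Pool.Agent.Results.MP_d91868_an.FullOrder
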